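import Pool.Agent.UHW.Period

/-!
# Collisions of polynomials with purely inseparable reduction have large degree
-/

set_option autoImplicit false

open IsDedekindDomain NumberField Polynomial
open scoped WithZero

namespace Pool.Agent.UHW

open Pool.Agent.Arb.DB (od u_ne od_mul od_pos od_nonneg od_lt od_le od_eq od_add_eq od_add_ge
  od_pow)
open Pool.Agent.UH

section loc
variable {F : Type*} [Field F] {u : Valuation F ℤᵐ⁰}

/-- The growth of the orbit outside the unit disc. -/
theorem mm_iter {q : ℕ} (hq : 1 ≤ q) {π : F} (hπ : u π < 1) {f : F[X]} (h : Good u q π f)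
    (x : F) (n : ℕ) : u (mm u ((fun t => f.eval t)^[n] x)) = u (mm u x) ^ q ^ n := by
  induction n with
  | zero => simp
  | succ n ih =>
    rw [Function.iterate_succ_apply', h.mm_eval hq hπ, ih, ← pow_mul, ← pow_succ]

/-- The derivative far outside. -/
theorem deriv_far {q : ℕ} (hq : 2 ≤ q) {π : F} (hπ : u π < 1) {f : F[X]} (h : Good u q π f)
    (hq0 : (q : F) ≠ 0) {y : F} (hy : 1 < u (q * y)) (huq : u (q : F) ≤ 1) :
    u (f.derivative.eval y) = u ((q : F)) * u y ^ (q - 1) := by
  have hy1 : 1 < u y := by
    rw [map_mul] at hy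
    exact hy.trans_le (mul_le_of_le_one_left zero_le huq)
  have hy0 : u y ≠ 0 := (zero_lt_one.trans hy1).ne'
  have e1 : f.derivative.eval y = ∑ i ∈ Finset.range (q - 1 + 1),
      f.derivative.coeff i * y ^ i := by
    rw [eval_eq_sum_range' (n := q - 1 + 1)]
    have := natDegree_derivative_le f
    rw [h.natDegree] at this
    omega
  have e2 : u (f.derivative.coeff (q - 1) * y ^ (q - 1)) = u (q : F) * u y ^ (q - 1) := by
    rw [coeff_derivative, map_mul, map_mul, map_pow]
    have e3 : q - 1 + 1 = q := by omega
    rw [e3, h.lead, one_mul]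
    congr 2
    have : ((q - 1 : ℕ) : F) + 1 = ((q - 1 + 1 : ℕ) : F) := by push_cast; ring
    rw [this, e3]
  rw [e1, Finset.sum_range_succ, add_comm, Valuation.map_add_eq_of_lt_left u, e2]
  rw [e2]
  refine Valuation.map_sum_lt u (mul_ne_zero (u_ne u hq0) (pow_ne_zero _ hy0)) fun i hi => ?_
  have hi' := Finset.mem_range.mp hi
  rw [coeff_derivative, map_mul, map_mul, map_pow]
  have h1 : u (f.coeff (i + 1)) * u ((i : F) + 1) ≤ 1 := by
    refine mul_le_one₀ (h.coeff_le hπ _) zero_le ?_
    have : ((i : F) + 1) = ((i + 1 : ℕ) : F) := by push_cast; ring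
    rw [this]
    exact natCast_mem u.integer (i + 1)
  calc u (f.coeff (i + 1)) * u ((i : F) + 1) * u y ^ i ≤ 1 * u y ^ i := by gcongr
    _ = u y ^ i := one_mul _
    _ ≤ u y ^ (q - 2) := pow_le_pow_right₀ hy1.le (by omega)
    _ = 1 * u y ^ (q - 2) := (one_mul _).symm
    _ < u (q * y) * u y ^ (q - 2) := by
        exact mul_lt_mul_of_pos_right hy (pow_pos (zero_lt_one.trans hy1) _)
    _ = u (q : F) * u y ^ (q - 1) := by
        rw [map_mul, mul_assoc, ← pow_succ']
        congr 2
        omega

end loc

section glob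
variable {K : Type*} [Field K] [NumberField K]

/-- **Collisions have large degree: purely inseparable reduction.** -/
theorem collision_good {p s : ℕ} (hp : p.Prime) (hs : 0 < s) (f : K[X])
    (v : HeightOneSpectrum (𝓞 K)) (hv : v.valuation K (p : K) < 1)
    (hdeg : f.natDegree = p ^ s) (hlead : v.valuation K (f.coeff (p ^ s)) = 1)
    (hmid : ∀ i, 0 < i → i < p ^ s → v.valuation K (f.coeff i) < 1)
    (hconst : v.valuation K (f.coeff 0) ≤ 1)
    (hcrit : ∀ n, 0 < n → IsCoprime (derivative f) ((f.comp)^[n] X - X)) :
    ∃ C0 : ℕ, 0 < C0 ∧ ∀ (E : Type*) [Field E] [NumberField E] [Algebra K E] (x y : E) (N : ℕ),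
      (fun z : E => aeval z f)^[N + 1] x = (fun z : E => aeval z f)^[N + 1] y →
      (fun z : E => aeval z f)^[N] x ≠ (fun z : E => aeval z f)^[N] y →
        f.natDegree ^ N ≤ C0 * Module.finrank K E := by
  classical
  set u := v.valuation K with hu
  have hp0 : (p : K) ≠ 0 := by exact_mod_cast hp.ne_zero
  obtain ⟨π, hπu⟩ := v.valuation_exists_uniformizer K
  rw [← hu] at hπu
  have hπ0 : π ≠ 0 := by
    rintro rfl
    rw [map_zero] at hπu
    exact (WithZero.exp_ne_zero).symm hπu
  have hodπ : od u π = 1 := by
    unfold od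
    rw [hπu, WithZero.log_exp]; ring
  have hπ : u π < 1 := by rw [od_pos u hπ0, hodπ]; exact one_pos
  have hlt_le : ∀ a : K, u a < 1 → u a ≤ u π := by
    intro a ha
    by_cases ha0 : a = 0
    · rw [ha0, map_zero]; exact zero_le
    · rw [od_le u ha0 hπ0, hodπ]
      have := (od_pos u ha0).mp ha
      omega
  have hpπ : u (p : K) ≤ u π := hlt_le _ hv
  set q := p ^ s with hq
  have hq2 : 2 ≤ q := by
    calc 2 ≤ p := hp.two_le
      _ = p ^ 1 := (pow_one p).symm
      _ ≤ p ^ s := Nat.pow_le_pow_right hp.pos hs
  have hq0 : ((q : ℕ) : K) ≠ 0 := by exact_mod_cast (by omega : q ≠ 0)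
  have hG : Good u q π f := by
    refine ⟨fun i hi => coeff_eq_zero_of_natDegree_lt (by omega), hlead, fun i h1 h2 =>
      hlt_le _ (hmid i h1 h2), hconst⟩
  have huq : u ((q : ℕ) : K) < 1 := by
    rw [hq]; push_cast; rw [map_pow]
    exact pow_lt_one₀ zero_le hv (by omega)
  -- the constants
  have hD0 : derivative f ≠ 0 := by
    intro h0
    have h1 := derivative_eq_zero.mp h0
    omega
  obtain ⟨n1, δ, hn1, hδ0, hper⟩ := exists_period_unif.{_, _} hp v hπ0 hπ hpπ hG hD0
  obtain ⟨U, V, hUV⟩ := hcrit n1 hn1
  obtain ⟨κU, hκU0, hκU1, hκU⟩ := exists_max_coeff u U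
  obtain ⟨κV, hκV0, hκV1, hκV⟩ := exists_max_coeff u V
  set M : ℕ := (od u ((q : ℕ) : K)).toNat + (od u δ).toNat + (-od u κU).toNat +
    (-od u κV).toNat with hM
  refine ⟨q ^ M * q * (M + 1), by positivity, ?_⟩
  intro E _ _ _ x y N heq hne
  obtain ⟨W, e, he0, he, hw⟩ := Arb.exists_above v E
  set w := W.valuation E with hwdef
  rw [hdeg]
  have he0' : (0 : ℤ) < e := by exact_mod_cast he0
  have hodw : ∀ a : K, od w (algebraMap K E a) = e * od u a := fun a =>
    od_pow u e w (hw a).symm
  have hGE : Good w q (algebraMap K E π) (f.map (algebraMap K E)) := good_base hw hG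
  have hπE0 : algebraMap K E π ≠ 0 := by simpa using hπ0
  have hodπE : od w (algebraMap K E π) = e := by rw [hodw, hodπ, mul_one]
  have hπE : w (algebraMap K E π) < 1 := by
    rw [od_pos w hπE0, hodπE]; exact he0'
  have hpE : w (p : E) ≤ w (algebraMap K E π) := by
    have e1 := hw (p : K)
    rw [map_natCast (algebraMap K E)] at e1
    rw [← e1, ← hw]
    exact pow_le_pow_left₀ zero_le hpπ _
  have hqE0 : ((q : ℕ) : E) ≠ 0 := by exact_mod_cast (by omega : q ≠ 0)
  have hodqE : od w ((q : ℕ) : E) = e * od u ((q : ℕ) : K) := by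
    rw [← hodw, map_natCast]
  have hfun : (fun z : E => aeval z f) = fun t => (f.map (algebraMap K E)).eval t := by
    funext z
    rw [eval_map_algebraMap]
  rw [hfun] at heq hne
  set φ : E → E := fun t => (f.map (algebraMap K E)).eval t with hφ
  have hDE : (f.map (algebraMap K E)).derivative = (derivative f).map (algebraMap K E) :=
    derivative_map _ _
  -- the two ways to conclude
  have hfin1 : ∀ m : ℕ, (m : ℤ) * e ≤ e * M →
      ((q : ℕ) : ℤ) ^ N ≤ ((q : ℕ) : ℤ) ^ m * ((q : ℕ) * e) →
      q ^ N ≤ q ^ M * q * (M + 1) * Module.finrank K E := by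
    intro m hm1 hm2
    have hm3 : m ≤ M := by
      have : (m : ℤ) * e ≤ M * e := by linarith
      exact_mod_cast le_of_mul_le_mul_right this he0'
    have h7 : q ^ N ≤ q ^ m * (q * e) := by exact_mod_cast hm2
    calc q ^ N ≤ q ^ m * (q * e) := h7
      _ ≤ q ^ M * (q * e) := Nat.mul_le_mul_right _ (Nat.pow_le_pow_right (by omega) hm3)
      _ = q ^ M * q * 1 * e := by ring
      _ ≤ q ^ M * q * (M + 1) * Module.finrank K E := by
          apply Nat.mul_le_mul _ he
          exact Nat.mul_le_mul_left _ (by omega)
  have hfin2 : ((q : ℕ) : ℤ) ^ N ≤ e * M →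
      q ^ N ≤ q ^ M * q * (M + 1) * Module.finrank K E := by
    intro hm
    have h7 : q ^ N ≤ e * M := by exact_mod_cast hm
    have h8 : 1 ≤ q ^ M * q := Nat.one_le_iff_ne_zero.mpr (by positivity)
    calc q ^ N ≤ e * M := h7
      _ = 1 * M * e := by ring
      _ ≤ q ^ M * q * (M + 1) * Module.finrank K E := by
          apply Nat.mul_le_mul _ he
          exact Nat.mul_le_mul h8 (by omega)
  set a := φ^[N] x with ha
  set b := φ^[N] y with hb
  have hab : (f.map (algebraMap K E)).eval a = (f.map (algebraMap K E)).eval b := by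
    rw [Function.iterate_succ_apply', Function.iterate_succ_apply'] at heq
    exact heq
  have hTab : w (TT w a b) < 1 := by
    apply hGE.T_back hp hπE0 hπE hpE
    rw [hab, TT_eq_zero.mpr rfl, map_zero]
    exact zero_lt_one
  have hTxy : w (TT w x y) < 1 := hGE.T_back_iter hp hπE0 hπE hpE (n := N) hTab
  obtain ⟨m, hm1, hm2⟩ := hGE.orbit hp hs hπE0 hπE hpE hTxy N hne
  rw [hodπE] at hm1 hm2
  have hTne : TT w a b ≠ 0 := by
    rw [Ne, TT_eq_zero]; exact hne
  have hdc := hGE.deriv_collision hp hπE0 hπE hpE hab hne
  rw [hDE] at hdc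
  rcases lt_or_ge 1 (w b) with hb1 | hb1
  · -- outside
    have hmb : mm w b = b := mm_of_gt w hb1
    have hb0 : b ≠ 0 := by
      intro h0
      rw [h0, map_zero] at hb1
      exact absurd hb1 (not_lt.mpr zero_le)
    rcases le_or_gt (w ((q : ℕ) * b)) 1 with h1 | h1
    · -- `b` is not too large: ramification
      apply hfin2
      have h2 : w b = w (mm w y) ^ q ^ N := by
        rw [← mm_iter (by omega) hπE hGE y N, ← hφ, ← hb, hmb]
      have h3 : od w b = q ^ N * od w (mm w y) := by
        have := od_pow (x := mm w y) w (q ^ N) w (y := b) h2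
        rw [this]; push_cast; ring
      have h4 : od w b < 0 := by
        by_contra hcon
        push Not at hcon
        exact absurd hb1 (not_lt.mpr ((od_nonneg w hb0).mpr hcon))
      have h5 : 1 ≤ -od w (mm w y) := by
        by_contra hcon
        push Not at hcon
        have : 0 ≤ od w (mm w y) := by omega
        rw [h3] at h4
        have : (0 : ℤ) ≤ (q : ℤ) ^ N * od w (mm w y) := by positivity
        omega
      have h6 : 0 ≤ od w ((q : ℕ) * b) := (od_nonneg w (mul_ne_zero hqE0 hb0)).mp h1
      rw [od_mul w hqE0 hb0, hodqE, h3] at h6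
      have h7 : (od u ((q : ℕ) : K)) ≤ M := by
        rw [hM]; push_cast
        have := Int.self_le_toNat (od u ((q : ℕ) : K))
        omega
      have h8 : (0 : ℤ) ≤ (q : ℤ) ^ N := by positivity
      nlinarith
    · -- far outside
      have h2 := deriv_far hq2 hπE hGE hqE0 h1 (by
        rw [← map_natCast (algebraMap K E), ← hw]
        exact pow_le_one₀ zero_le huq.le)
      rw [hDE] at h2
      rw [hmb, map_div₀, h2, map_pow, mul_div_assoc, div_self (pow_ne_zero _ (u_ne w hb0)),
        mul_one, od_le w hqE0 hTne, hodqE] at hdc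
      refine hfin1 m ?_ hm2
      have h7 : (od u ((q : ℕ) : K)) ≤ M := by
        rw [hM]; push_cast
        have := Int.self_le_toNat (od u ((q : ℕ) : K))
        omega
      calc (m : ℤ) * e ≤ od w (TT w a b) := hm1
        _ ≤ e * od u ((q : ℕ) : K) := hdc
        _ ≤ e * M := mul_le_mul_of_nonneg_left h7 he0'.le
  · -- inside
    have hmb : mm w b = 1 := mm_of_le w hb1
    rw [hmb, one_pow, div_one] at hdc
    set D := ((derivative f).map (algebraMap K E)).eval b with hDdef
    by_cases hcase : w D < w (algebraMap K E δ) ∧ w D * w (algebraMap K E κU) < 1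
    · -- `b` is close to a critical point
      obtain ⟨hc1, hc2⟩ := hcase
      have hy1 : w y ≤ 1 := by
        by_contra hcon
        push Not at hcon
        have h2 : w (mm w b) = w (mm w y) ^ q ^ N := by
          rw [hb, hφ]; exact mm_iter (by omega) hπE hGE y N
        rw [hmb, mm_of_gt w hcon, map_one] at h2
        exact absurd h2.symm (one_lt_pow₀ hcon (by positivity)).ne'
      have hP := hper E w e he0 hw b hb1 hc1
      rw [← hφ] at hP
      -- Bezout
      have hbez : ((U.map (algebraMap K E)).eval b) * D +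
          ((V.map (algebraMap K E)).eval b) * (φ^[n1] b - b) = 1 := by
        have h1 := congrArg (fun P : K[X] => (P.map (algebraMap K E)).eval b) hUV
        simp only [Polynomial.map_add, Polynomial.map_mul, eval_add, eval_mul,
          Polynomial.map_sub, eval_sub, Polynomial.map_X, eval_X, Polynomial.map_one,
          eval_one] at h1
        have h2 : (((f.comp)^[n1] X).map (algebraMap K E)).eval b = φ^[n1] b := by
          rw [eval_map_algebraMap, ← eval_map_algebraMap]
          have h3 : ∀ n : ℕ, (((f.comp)^[n] X).map (algebraMap K E)).eval b = φ^[n] b := by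
            intro n
            induction n with
            | zero => simp
            | succ n ih =>
              rw [Function.iterate_succ_apply', Polynomial.map_comp, eval_comp, ih,
                Function.iterate_succ_apply']
          exact h3 n1
        rw [h2] at h1
        exact h1
      have hUle : w ((U.map (algebraMap K E)).eval b) ≤ w (algebraMap K E κU) := by
        refine eval_val_le w (fun i => ?_) hb1
        rw [coeff_map, ← hw, ← hw]
        exact pow_le_pow_left₀ zero_le (hκU i) _
      have hVle : w ((V.map (algebraMap K E)).eval b) ≤ w (algebraMap K E κV) := by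
        refine eval_val_le w (fun i => ?_) hb1
        rw [coeff_map, ← hw, ← hw]
        exact pow_le_pow_left₀ zero_le (hκV i) _
      have hUD : w (((U.map (algebraMap K E)).eval b) * D) < 1 := by
        rw [map_mul]
        calc w ((U.map (algebraMap K E)).eval b) * w D ≤ w (algebraMap K E κU) * w D := by
              gcongr
          _ = w D * w (algebraMap K E κU) := mul_comm _ _
          _ < 1 := hc2
      have hVb : w (((V.map (algebraMap K E)).eval b) * (φ^[n1] b - b)) = 1 := by
        have e1 : ((V.map (algebraMap K E)).eval b) * (φ^[n1] b - b) =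
            1 + -(((U.map (algebraMap K E)).eval b) * D) := by
          linear_combination hbez
        rw [e1, Valuation.map_add_eq_of_lt_left w (by rw [Valuation.map_neg, map_one]; exact hUD),
          map_one]
      have hz0 : φ^[n1] b - b ≠ 0 := by
        intro h0
        rw [h0, mul_zero, map_zero] at hVb
        exact zero_ne_one hVb
      have hκVE0 : algebraMap K E κV ≠ 0 := by simpa using hκV0
      have hge : 1 ≤ w (algebraMap K E κV * (φ^[n1] b - b)) := by
        rw [map_mul, ← hVb, map_mul]
        gcongr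
      have hod1 : od w (φ^[n1] b - b) ≤ e * (-od u κV) := by
        have h2 := (od_le w one_ne_zero (mul_ne_zero hκVE0 hz0)).mp (by rw [map_one]; exact hge)
        rw [od_mul w hκVE0 hz0, hodw] at h2
        have h3 : od w (1 : E) = 0 := by unfold od; rw [map_one, WithZero.log_one]; ring
        rw [h3] at h2
        linarith
      -- the pair `(φ^[n1] y, y)`
      have hcomm : φ^[N] (φ^[n1] y) = φ^[n1] b := by
        rw [hb, ← Function.iterate_add_apply, ← Function.iterate_add_apply, add_comm]
      have hT1 : w (TT w (φ^[N] (φ^[n1] y)) (φ^[N] y)) < 1 := by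
        rw [hcomm, ← hb]
        unfold TT
        rw [hmb, div_one]
        exact hP
      have hT0 : w (TT w (φ^[n1] y) y) < 1 := hGE.T_back_iter hp hπE0 hπE hpE hT1
      obtain ⟨m', hm1', hm2'⟩ := hGE.orbit hp hs hπE0 hπE hpE hT0 N (by
        rw [← hφ, hcomm, ← hb]
        exact sub_ne_zero.mp hz0)
      rw [hodπE] at hm1' hm2'
      rw [← hφ, hcomm, ← hb] at hm1'
      have hTz : TT w (φ^[n1] b) b = φ^[n1] b - b := by
        unfold TT
        rw [hmb, div_one]
      rw [hTz] at hm1'
      refine hfin1 m' ?_ hm2'
      have h7 : (-od u κV) ≤ M := by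
        rw [hM]; push_cast
        have := Int.self_le_toNat (-od u κV)
        omega
      calc (m' : ℤ) * e ≤ od w (φ^[n1] b - b) := hm1'
        _ ≤ e * (-od u κV) := hod1
        _ ≤ e * M := mul_le_mul_of_nonneg_left h7 he0'.le
    · -- the derivative at `b` is bounded below
      have hδE0 : algebraMap K E δ ≠ 0 := by simpa using hδ0
      have hκUE0 : algebraMap K E κU ≠ 0 := by simpa using hκU0
      rw [not_and_or, not_lt, not_lt] at hcase
      have hD0' : D ≠ 0 := by
        intro h0
        rw [h0, map_zero, zero_mul] at hcase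
        rcases hcase with h | h
        · exact u_ne w hδE0 (le_antisymm h zero_le)
        · exact absurd h (not_le.mpr zero_lt_one)
      have hodD : od w D ≤ e * M := by
        have h7 : (od u δ) ≤ M ∧ (-od u κU) ≤ M := by
          rw [hM]; push_cast
          have h8 := Int.self_le_toNat (-od u κU)
          have h9 := Int.self_le_toNat (od u δ)
          omega
        rcases hcase with h | h
        · have h8 := (od_le w hδE0 hD0').mp h
          rw [hodw] at h8
          exact h8.trans (mul_le_mul_of_nonneg_left h7.1 he0'.le)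
        · rw [← map_mul] at h
          have h8 := (od_le w one_ne_zero (mul_ne_zero hD0' hκUE0)).mp (by rw [map_one]; exact h)
          rw [od_mul w hD0' hκUE0, hodw] at h8
          have h3 : od w (1 : E) = 0 := by unfold od; rw [map_one, WithZero.log_one]; ring
          rw [h3] at h8
          have h9 := mul_le_mul_of_nonneg_left h7.2 he0'.le
          linarith
      refine hfin1 m ?_ hm2
      calc (m : ℤ) * e ≤ od w (TT w a b) := hm1
        _ ≤ od w D := (od_le w hD0' hTne).mp hdc
        _ ≤ e * M := hodD

/-- No periodic critical point. -/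
theorem coprime_of_no_periodic {K : Type*} [Field K] (f : K[X])
    (h : ∀ ω : AlgebraicClosure K, aeval ω (derivative f) = 0 →
      ∀ n, 0 < n → (fun z : AlgebraicClosure K => aeval z f)^[n] ω ≠ ω) :
    ∀ n, 0 < n → IsCoprime (derivative f) ((f.comp)^[n] X - X) := by
  intro n hn
  rw [isCoprime_iff_aeval_ne_zero_of_isAlgClosed K (AlgebraicClosure K)]
  intro ω
  by_contra hcon
  push Not at hcon
  obtain ⟨h1, h2⟩ := hcon
  apply h ω h1 n hn
  rw [map_sub, aeval_X, sub_eq_zero] at h2
  have key : ∀ m : ℕ, aeval ω ((f.comp)^[m] X) =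
      (fun z : AlgebraicClosure K => aeval z f)^[m] ω := by
    intro m
    induction m with
    | zero => simp
    | succ m ih => rw [Function.iterate_succ_apply', aeval_comp, ih, Function.iterate_succ_apply']
  rw [← key n]
  exact h2

end glob

end Pool.Agent.UHW
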