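import Pool.Agent.UH.GOrb

/-!
# Purely inseparable reduction: a uniform residual period
-/

set_option autoImplicit false

open IsDedekindDomain NumberField Polynomial
open scoped WithZero

namespace Pool.Agent.UHW

open Pool.Agent.Arb.DB (od u_ne od_mul od_pos od_nonneg od_lt od_le od_eq od_add_eq od_add_ge
  od_pow)
open Pool.Agent.UH

section loc
variable {F : Type*} [Field F] (u : Valuation F ℤᵐ⁰)

theorem eval_val_le {P : F[X]} {c : ℤᵐ⁰} (hP : ∀ i, u (P.coeff i) ≤ c) {z : F} (hz : u z ≤ 1) :
    u (P.eval z) ≤ c := by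
  rw [eval_eq_sum_range]
  refine Valuation.map_sum_le u fun i _ => ?_
  rw [map_mul, map_pow]
  exact (mul_le_of_le_one_right zero_le (pow_le_one₀ zero_le hz)).trans (hP i)

theorem eval_val_lt {P : F[X]} {c : ℤᵐ⁰} (hc : c ≠ 0) (hP : ∀ i, u (P.coeff i) < c) {z : F}
    (hz : u z ≤ 1) : u (P.eval z) < c := by
  rw [eval_eq_sum_range]
  refine Valuation.map_sum_lt u hc fun i _ => ?_
  rw [map_mul, map_pow]
  exact (mul_le_of_le_one_right zero_le (pow_le_one₀ zero_le hz)).trans_lt (hP i)

/-- An element dominating `1` and the coefficients. -/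
theorem exists_max_coeff (P : F[X]) :
    ∃ κ : F, κ ≠ 0 ∧ 1 ≤ u κ ∧ ∀ i, u (P.coeff i) ≤ u κ := by
  classical
  obtain ⟨κ, _, hκ⟩ := Finset.exists_max_image (insert (1 : F) (P.support.image P.coeff)) u
    ⟨1, Finset.mem_insert_self _ _⟩
  have h1 : 1 ≤ u κ := by
    have := hκ 1 (Finset.mem_insert_self _ _)
    rwa [map_one] at this
  refine ⟨κ, ?_, h1, fun i => ?_⟩
  · rintro rfl
    rw [map_zero] at h1
    exact absurd h1 (not_le.mpr zero_lt_one)
  · by_cases hi : P.coeff i = 0
    · rw [hi, map_zero]; exact zero_le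
    · exact hκ _ (Finset.mem_insert_of_mem (Finset.mem_image_of_mem _ (mem_support_iff.mpr hi)))

/-- The last index of maximal valuation. -/
theorem exists_last {P : F[X]} (hP : P ≠ 0) :
    ∃ j, P.coeff j ≠ 0 ∧ (∀ i, u (P.coeff i) ≤ u (P.coeff j)) ∧
      ∀ i, j < i → u (P.coeff i) < u (P.coeff j) := by
  classical
  obtain ⟨m, hm, hmax⟩ := Finset.exists_max_image P.support (fun i => u (P.coeff i))
    (nonempty_support_iff.mpr hP)
  have hall : ∀ i, u (P.coeff i) ≤ u (P.coeff m) := by
    intro i
    by_cases hi : P.coeff i = 0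
    · rw [hi, map_zero]; exact zero_le
    · exact hmax i (mem_support_iff.mpr hi)
  set J := P.support.filter (fun i => u (P.coeff i) = u (P.coeff m)) with hJ
  have hne : J.Nonempty := ⟨m, Finset.mem_filter.mpr ⟨hm, rfl⟩⟩
  have hj := Finset.max'_mem J hne
  set j := J.max' hne with hjdef
  rw [hJ, Finset.mem_filter] at hj
  refine ⟨j, mem_support_iff.mp hj.1, fun i => by rw [hj.2]; exact hall i, fun i hi => ?_⟩
  rw [hj.2]
  refine lt_of_le_of_ne (hall i) fun h => ?_
  have h0 : P.coeff i ≠ 0 := by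
    intro h1
    rw [h1, map_zero] at h
    exact u_ne u (mem_support_iff.mp hm) h.symm
  have := Finset.le_max' J i (Finset.mem_filter.mpr ⟨mem_support_iff.mpr h0, h⟩)
  omega

end loc

/-- Base change. -/
theorem good_base {K E : Type*} [Field K] [Field E] [Algebra K E] {v : Valuation K ℤᵐ⁰}
    {w : Valuation E ℤᵐ⁰} {e : ℕ} (hw : ∀ x : K, v x ^ e = w (algebraMap K E x))
    {q : ℕ} {π : K} {f : K[X]} (h : Good v q π f) :
    Good w q (algebraMap K E π) (f.map (algebraMap K E)) := by
  refine ⟨fun i hi => ?_, ?_, fun i h1 h2 => ?_, ?_⟩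
  · rw [coeff_map, h.top i hi, map_zero]
  · rw [coeff_map, ← hw, h.lead, one_pow]
  · rw [coeff_map, ← hw, ← hw]
    exact pow_le_pow_left₀ zero_le (h.mid i h1 h2) _
  · rw [coeff_map, ← hw]
    exact pow_le_one₀ zero_le h.const

section glob
variable {K : Type*} [Field K] [NumberField K]

/-- A uniform period, modulo all the places above `v`, of the points where `D` is small. -/
theorem exists_period_unif {p s : ℕ} (hp : p.Prime) (v : HeightOneSpectrum (𝓞 K)) {π : K}
    (hπ0 : π ≠ 0) (hπ : v.valuation K π < 1) (hpπ : v.valuation K (p : K) ≤ v.valuation K π)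
    {f : K[X]} (h : Good (v.valuation K) (p ^ s) π f) {D : K[X]} (hD : D ≠ 0) :
    ∃ (n : ℕ) (δ : K), 0 < n ∧ δ ≠ 0 ∧ ∀ (E : Type*) [Field E] [Algebra K E]
      (w : Valuation E ℤᵐ⁰) (e : ℕ), 0 < e → (∀ x : K, v.valuation K x ^ e =
        w (algebraMap K E x)) → ∀ z : E, w z ≤ 1 →
        w ((D.map (algebraMap K E)).eval z) < w (algebraMap K E δ) →
        w ((fun t => (f.map (algebraMap K E)).eval t)^[n] z - z) < 1 := by
  classical
  set u := v.valuation K with hu
  obtain ⟨j, hj0, hjle, hjlt⟩ := exists_last u hD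
  set δ := D.coeff j with hδ
  set A := u.integer with hA
  have hmemA : ∀ a : K, a ∈ A ↔ u a ≤ 1 := fun a => Iff.rfl
  have hdivA : ∀ i, u (D.coeff i / δ) ≤ 1 := by
    intro i
    rw [map_div₀, div_le_one₀ (zero_lt_iff.mpr (u_ne u hj0))]
    exact hjle i
  -- the truncated monic polynomial
  set g : A[X] := ∑ i ∈ Finset.range (j + 1), monomial i (⟨D.coeff i / δ, hdivA i⟩ : A) with hg
  have hgc : ∀ i, g.coeff i = if i < j + 1 then (⟨D.coeff i / δ, hdivA i⟩ : A) else 0 := by
    intro i
    rw [hg, finsetSum_coeff]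
    simp only [coeff_monomial]
    rw [Finset.sum_ite_eq' (Finset.range (j + 1)) i]
    simp only [Finset.mem_range]
  have hgd : g.natDegree ≤ j := by
    rw [natDegree_le_iff_coeff_eq_zero]
    intro i hi
    rw [hgc, if_neg (by omega)]
  have hgm : g.Monic := by
    refine monic_of_natDegree_le_of_coeff_eq_one j hgd ?_
    rw [hgc, if_pos (by omega)]
    apply Subtype.ext
    change D.coeff j / δ = 1
    exact div_self hj0
  -- the lift of `f`
  have hfA : (↑f.coeffs : Set K) ⊆ A := by
    intro a ha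
    rw [Finset.mem_coe, mem_coeffs_iff] at ha
    obtain ⟨i, _, rfl⟩ := ha
    exact h.coeff_le hπ i
  set fA : A[X] := f.toSubring A hfA with hfAdef
  have hfAmap : fA.map A.subtype = f := map_toSubring f A hfA
  set P : ℕ → A[X] := fun n => (fA.comp)^[n] X with hP
  set R : ℕ → A[X] := fun n => P n %ₘ g with hR
  have hRc : ∀ n i, j ≤ i → (R n).coeff i = 0 := by
    intro n i hi
    rcases eq_or_ne g 1 with h1 | h1
    · simp only [hR]
      rw [h1, modByMonic_one, coeff_zero]
    · apply coeff_eq_zero_of_natDegree_lt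
      exact (natDegree_modByMonic_lt (P n) hgm h1).trans_le (hgd.trans hi)
  -- classes
  have hcl : ∀ a : A, ∃ b : 𝓞 K, u (algebraMap (𝓞 K) K b - a) < 1 := by
    intro a
    obtain ⟨b, hb⟩ := v.exists_valuation_sub_lt_of_integer (x := (a : K)) a.2 1
    exact ⟨b, by simpa using hb⟩
  choose b hb using hcl
  have hcleq : ∀ a a' : A, Ideal.Quotient.mk v.asIdeal (b a) = Ideal.Quotient.mk v.asIdeal (b a') →
      u ((a : K) - a') < 1 := by
    intro a a' he
    have h3 : b a - b a' ∈ v.asIdeal := by
      rw [← Ideal.Quotient.eq]; exact he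
    have h4 : u (algebraMap (𝓞 K) K (b a - b a')) < 1 := by
      rw [hu, v.valuation_lt_one_iff_mem]; exact h3
    have e : (a : K) - a' = algebraMap (𝓞 K) K (b a - b a') +
        ((algebraMap (𝓞 K) K (b a') - a') - (algebraMap (𝓞 K) K (b a) - a)) := by
      rw [map_sub]; ring
    rw [e]
    exact Valuation.map_add_lt _ h4 (Valuation.map_sub_lt _ (hb a') (hb a))
  have : Finite (𝓞 K ⧸ v.asIdeal) := Ideal.finiteQuotientOfFreeOfNeBot _ v.ne_bot
  obtain ⟨n, n', hnn, he⟩ := Finite.exists_ne_map_eq_of_infinite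
    (fun n : ℕ => fun l : Fin j => (Ideal.Quotient.mk v.asIdeal (b ((R n).coeff l))))
  wlog hlt : n < n' generalizing n n'
  · exact this n' n hnn.symm he.symm (by omega)
  have hRR : ∀ i, u (((R n).coeff i : K) - (R n').coeff i) < 1 := by
    intro i
    rcases lt_or_ge i j with hi | hi
    · exact hcleq _ _ (congrFun he ⟨i, hi⟩)
    · rw [hRc n i hi, hRc n' i hi, sub_self, map_zero]
      exact zero_lt_one
  refine ⟨n' - n, δ, by omega, hj0, ?_⟩
  intro E _ _ w e he0 hw z hz hDz
  set ι : A →+* E := (algebraMap K E).comp A.subtype with hι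
  have hιle : ∀ a : A, w (ι a) ≤ 1 := by
    intro a
    change w (algebraMap K E a) ≤ 1
    rw [← hw]
    exact pow_le_one₀ zero_le a.2
  have hGood : Good w (p ^ s) (algebraMap K E π) (f.map (algebraMap K E)) := good_base hw h
  have hπE0 : algebraMap K E π ≠ 0 := by simpa using hπ0
  have hπE : w (algebraMap K E π) < 1 := by
    rw [← hw]; exact pow_lt_one₀ zero_le hπ (by omega)
  have hpE : w (p : E) ≤ w (algebraMap K E π) := by
    have e1 := hw (p : K)
    rw [map_natCast (algebraMap K E)] at e1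
    rw [← e1, ← hw]
    exact pow_le_pow_left₀ zero_le hpπ _
  set φ : E → E := fun t => (f.map (algebraMap K E)).eval t with hφ
  have hfE : f.map (algebraMap K E) = fA.map ι := by
    rw [hι, ← Polynomial.map_map, hfAmap]
  have hPev : ∀ m, eval₂ ι z (P m) = φ^[m] z := by
    intro m
    induction m with
    | zero => simp [hP]
    | succ m ih =>
      have e1 : P (m + 1) = fA.comp (P m) := by
        simp only [hP]
        rw [Function.iterate_succ_apply']
      rw [e1, eval₂_comp, ih, Function.iterate_succ_apply', ← eval_map, ← hfE]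
  have hint : ∀ m, w (φ^[m] z) ≤ 1 := by
    intro m
    induction m with
    | zero => exact hz
    | succ m ih => rw [Function.iterate_succ_apply']; exact hGood.eval_le hπE ih
  -- `g` is small at `z`
  have hδE : w (algebraMap K E δ) ≠ 0 := u_ne w (by simpa using hj0)
  have hgz : w (eval₂ ι z g) < 1 := by
    have e1 : (D.map (algebraMap K E) - C (algebraMap K E δ) * g.map ι).eval z =
        (D.map (algebraMap K E)).eval z - algebraMap K E δ * eval₂ ι z g := by
      rw [eval_sub, eval_mul, eval_C, eval_map ι]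
    have e2 : w ((D.map (algebraMap K E) - C (algebraMap K E δ) * g.map ι).eval z) <
        w (algebraMap K E δ) := by
      refine eval_val_lt w hδE (fun i => ?_) hz
      rw [coeff_sub, coeff_map, coeff_C_mul, coeff_map, hgc]
      split_ifs with hi
      · have : algebraMap K E δ * ι (⟨D.coeff i / δ, hdivA i⟩ : A) = algebraMap K E (D.coeff i) := by
          change algebraMap K E δ * algebraMap K E (D.coeff i / δ) = _
          rw [← map_mul, mul_div_cancel₀ _ hj0]
        rw [this, sub_self, map_zero]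
        exact zero_lt_iff.mpr hδE
      · rw [map_zero, mul_zero, sub_zero, ← hw, ← hw]
        exact pow_lt_pow_left₀ (hjlt i (by omega)) zero_le (by omega)
    have e3 : algebraMap K E δ * eval₂ ι z g = (D.map (algebraMap K E)).eval z -
        (D.map (algebraMap K E) - C (algebraMap K E δ) * g.map ι).eval z := by
      rw [e1]; ring
    have e4 : w (algebraMap K E δ * eval₂ ι z g) < w (algebraMap K E δ) := by
      rw [e3]; exact Valuation.map_sub_lt _ hDz e2
    rw [map_mul] at e4
    by_contra hcon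
    push Not at hcon
    exact absurd e4 (not_lt.mpr (le_mul_of_one_le_right zero_le hcon))
  have hPR : ∀ m, w (φ^[m] z - eval₂ ι z (R m)) < 1 := by
    intro m
    have e1 : P m = R m + g * (P m /ₘ g) := (modByMonic_add_div (P m) g).symm
    have e2 : φ^[m] z - eval₂ ι z (R m) = eval₂ ι z g * eval₂ ι z (P m /ₘ g) := by
      rw [← hPev m]
      conv_lhs => rw [e1]
      rw [eval₂_add, eval₂_mul]
      ring
    rw [e2, map_mul]
    have e3 : w (eval₂ ι z (P m /ₘ g)) ≤ 1 := by
      rw [← eval_map]
      exact eval_val_le w (fun i => by rw [coeff_map]; exact hιle _) hz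
    exact mul_lt_one_of_lt_of_le hgz e3
  have hRR' : w (eval₂ ι z (R n) - eval₂ ι z (R n')) < 1 := by
    rw [← eval₂_sub, ← eval_map]
    refine eval_val_lt w one_ne_zero (fun i => ?_) hz
    rw [coeff_map, coeff_sub]
    change w (algebraMap K E ((R n).coeff i - (R n').coeff i : A)) < 1
    rw [← hw]
    exact pow_lt_one₀ zero_le (hRR i) (by omega)
  have hnn' : w (φ^[n'] z - φ^[n] z) < 1 := by
    have e : φ^[n'] z - φ^[n] z = (φ^[n'] z - eval₂ ι z (R n')) - (eval₂ ι z (R n) -
        eval₂ ι z (R n')) - (φ^[n] z - eval₂ ι z (R n)) := by ring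
    rw [e]
    exact Valuation.map_sub_lt _ (Valuation.map_sub_lt _ (hPR n') hRR') (hPR n)
  have hT : w (TT w (φ^[n] (φ^[n' - n] z)) (φ^[n] z)) < 1 := by
    rw [← Function.iterate_add_apply, Nat.add_sub_cancel' hlt.le]
    unfold TT
    rw [mm_of_le w (hint n), div_one]
    exact hnn'
  have hT0 := hGood.T_back_iter hp hπE0 hπE hpE hT
  unfold TT at hT0
  rw [mm_of_le w hz, div_one] at hT0
  exact hT0

end glob

end Pool.Agent.UHW
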